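import Pool.Agent.H31.BOU.Targets1

/-!
# Parseval on the grid with `p` points
-/

set_option autoImplicit false

namespace Pool.Agent.H14.BOU

open Finset Pool.Agent.H31.BOU
open scoped ComplexConjugate

theorem ee_zero : ee 0 = 1 := by simp [ee]

theorem ee_add (s t : ℝ) : ee (s + t) = ee s * ee t := by
  unfold ee
  rw [← Complex.exp_add]
  congr 1
  push_cast
  ring

theorem norm_ee (t : ℝ) : ‖ee t‖ = 1 := Complex.norm_exp_ofReal_mul_I _

theorem conj_ee (t : ℝ) : conj (ee t) = ee (-t) := by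
  unfold ee
  rw [← Complex.exp_conj, map_mul, Complex.conj_ofReal, Complex.conj_I]
  congr 1
  push_cast
  ring

theorem ee_nat (n : ℕ) (t : ℝ) : ee (n * t) = ee t ^ n := by
  unfold ee
  rw [← Complex.exp_nat_mul]
  congr 1
  push_cast
  ring

theorem ee_eq_one_iff (t : ℝ) : ee t = 1 ↔ ∃ n : ℤ, t = n := by
  unfold ee
  rw [Complex.exp_eq_one_iff]
  have h2 : (2 * (Real.pi : ℂ) * Complex.I) ≠ 0 := Complex.two_pi_I_ne_zero
  refine exists_congr fun n => ?_
  have h3 : ((2 * Real.pi * t : ℝ) : ℂ) * Complex.I =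
      (t : ℂ) * (2 * (Real.pi : ℂ) * Complex.I) := by
    push_cast
    ring
  rw [h3]
  constructor
  · intro h
    have h4 := mul_right_cancel₀ h2 h
    exact_mod_cast h4
  · intro h
    rw [h]
    push_cast
    ring

/-- orthogonality on the grid -/
theorem sum_ee (p : ℕ) (d : ℤ) (hp : 0 < p) (hd : |d| < p) :
    ∑ b ∈ range p, ee ((b : ℝ) / p * (d : ℝ)) = if d = 0 then (p : ℂ) else 0 := by
  split_ifs with h
  · subst h
    simp [ee_zero]
  · have hp' : (p : ℝ) ≠ 0 := by exact_mod_cast hp.ne'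
    have h1 : ∀ b ∈ range p, ee ((b : ℝ) / p * (d : ℝ)) = ee ((d : ℝ) / p) ^ b := by
      intro b _
      rw [← ee_nat]
      congr 1
      ring
    rw [Finset.sum_congr rfl h1]
    have h2 := geom_sum_mul (ee ((d : ℝ) / p)) p
    have h3 : ee ((d : ℝ) / p) ^ p = 1 := by
      rw [← ee_nat, mul_div_cancel₀ _ hp']
      exact (ee_eq_one_iff _).2 ⟨d, rfl⟩
    rw [h3, sub_self] at h2
    have h4 : ee ((d : ℝ) / p) - 1 ≠ 0 := by
      intro h5
      obtain ⟨n, hn⟩ := (ee_eq_one_iff _).1 (sub_eq_zero.1 h5)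
      rw [div_eq_iff hp'] at hn
      have h6 : d = n * p := by exact_mod_cast hn
      have h7 : n ≠ 0 := by
        rintro rfl
        exact h (by simpa using h6)
      have h8 : 1 ≤ |n| := Int.one_le_abs h7
      have h9 : |d| = |n| * p := by
        rw [h6, abs_mul, Nat.abs_cast]
      nlinarith
    exact (mul_eq_zero.1 h2).resolve_right h4

theorem normSq_sum {ι : Type*} (s : Finset ι) (f : ι → ℂ) :
    ((‖∑ v ∈ s, f v‖ ^ 2 : ℝ) : ℂ) = ∑ v ∈ s, ∑ v' ∈ s, f v * conj (f v') := by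
  rw [Complex.ofReal_pow, ← Complex.mul_conj', map_sum, Finset.sum_mul_sum]

theorem pf_DFB : T_DFB := by
  intro p l x γ hp hl
  have h1 : ((∑ b ∈ range p, ‖ft (Ico x (x + l)) γ ((b : ℝ) / p)‖ ^ 2 : ℝ) : ℂ) =
      ((p * ∑ v ∈ Ico x (x + l), ‖γ v‖ ^ 2 : ℝ) : ℂ) := by
    rw [Complex.ofReal_sum]
    unfold ft
    simp only [normSq_sum]
    rw [Finset.sum_comm]
    push_cast
    rw [Finset.mul_sum]
    refine Finset.sum_congr rfl fun v hv => ?_
    rw [Finset.sum_comm]
    have h2 : ∀ v' ∈ Ico x (x + l), ∑ b ∈ range p,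
        γ v * ee (-((b : ℝ) / p * (v : ℝ))) * conj (γ v' * ee (-((b : ℝ) / p * (v' : ℝ)))) =
        γ v * conj (γ v') * (if v' - v = 0 then (p : ℂ) else 0) := by
      intro v' hv'
      rw [mem_Ico] at hv hv'
      rw [← sum_ee p (v' - v) hp (by rw [abs_lt]; constructor <;> omega), Finset.mul_sum]
      refine Finset.sum_congr rfl fun b _ => ?_
      rw [map_mul, conj_ee]
      have h3 : ee ((b : ℝ) / p * ((v' - v : ℤ) : ℝ)) =
          ee (-((b : ℝ) / p * (v : ℝ))) * ee (-(-((b : ℝ) / p * (v' : ℝ)))) := by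
        rw [← ee_add]
        congr 1
        push_cast
        ring
      rw [h3]
      ring
    rw [Finset.sum_congr rfl h2, Finset.sum_eq_single v]
    · rw [if_pos (sub_self v), ← Complex.mul_conj']
      ring
    · intro v' _ hne
      rw [if_neg (sub_ne_zero.2 hne), mul_zero]
    · intro h
      exact absurd hv h
  exact_mod_cast h1

end Pool.Agent.H14.BOU
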