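import Pool.Agent.H14.BOU.DFB

/-!
# The mean square bound of a convolution
-/

set_option autoImplicit false

namespace Pool.Agent.H14.BOU

open Finset Pool.Agent.H31.BOU
open scoped ComplexConjugate

/-- the convolution -/
noncomputable def cv (l : ℕ) (x : ℤ) (γ Θ : ℤ → ℂ) (m : ℤ) : ℂ :=
  ∑ v ∈ Ico x (x + l), γ v * (if m - v ∈ Ico x (x + l) then Θ (m - v) else 0)

theorem cv_support (l : ℕ) (x : ℤ) (γ Θ : ℤ → ℂ) (m : ℤ)
    (hm : m ∉ Ico (2 * x) (2 * x + (2 * l : ℕ))) : cv l x γ Θ m = 0 := by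
  unfold cv
  refine Finset.sum_eq_zero fun v hv => ?_
  rw [if_neg, mul_zero]
  intro h
  rw [mem_Ico] at hv h hm
  apply hm
  constructor
  · omega
  · push_cast
    omega

/-- the Fourier transform of the convolution is the product -/
theorem ft_cv (l : ℕ) (x : ℤ) (γ Θ : ℤ → ℂ) (β : ℝ) :
    ft (Ico (2 * x) (2 * x + (2 * l : ℕ))) (cv l x γ Θ) β =
      ft (Ico x (x + l)) γ β * ft (Ico x (x + l)) Θ β := by
  unfold ft cv
  simp only [Finset.sum_mul]
  rw [Finset.sum_comm]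
  refine Finset.sum_congr rfl fun v hv => ?_
  rw [Finset.mul_sum]
  have h1 : ∀ m ∈ Ico (2 * x) (2 * x + (2 * l : ℕ)),
      γ v * (if m - v ∈ Ico x (x + l) then Θ (m - v) else 0) * ee (-(β * (m : ℝ))) =
      if m - v ∈ Ico x (x + l) then
        γ v * ee (-(β * (v : ℝ))) * (Θ (m - v) * ee (-(β * ((m - v : ℤ) : ℝ)))) else 0 := by
    intro m _
    split_ifs with h
    · have h2 : ee (-(β * (m : ℝ))) = ee (-(β * (v : ℝ))) * ee (-(β * ((m - v : ℤ) : ℝ))) := by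
        rw [← ee_add]
        congr 1
        push_cast
        ring
      rw [h2]
      ring
    · ring
  rw [Finset.sum_congr rfl h1, ← Finset.sum_filter]
  refine Finset.sum_bij (fun m _ => m - v) ?_ ?_ ?_ ?_
  · intro m hm
    exact (mem_filter.1 hm).2
  · intro a _ b _ h
    omega
  · intro w hw
    refine ⟨w + v, ?_, by ring⟩
    rw [mem_filter]
    rw [mem_Ico] at hv hw
    have h3 : w + v - v = w := by ring
    rw [h3]
    refine ⟨?_, mem_Ico.2 hw⟩
    rw [mem_Ico]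
    constructor
    · omega
    · push_cast
      omega
  · intro m _
    rfl

theorem pf_DFC (_ : T_DFA) (hB : T_DFB) : T_DFC := by
  intro l x γ Θ R K hR hΘ
  rcases Nat.eq_zero_or_pos l with hl | hl
  · subst hl
    simp
  have hp : 0 < 2 * l := by omega
  have h1 : ∑ k ∈ K, ‖cv l x γ Θ (2 * k)‖ ^ 2 ≤
      ∑ m ∈ Ico (2 * x) (2 * x + (2 * l : ℕ)), ‖cv l x γ Θ m‖ ^ 2 := by
    have h2 : ∑ k ∈ K, ‖cv l x γ Θ (2 * k)‖ ^ 2 =
        ∑ m ∈ K.image (fun k => 2 * k), ‖cv l x γ Θ m‖ ^ 2 := by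
      rw [Finset.sum_image]
      intro a _ b _ h
      have h' : 2 * a = 2 * b := h
      omega
    rw [h2]
    calc ∑ m ∈ K.image (fun k => 2 * k), ‖cv l x γ Θ m‖ ^ 2 =
          ∑ m ∈ (K.image (fun k => 2 * k)).filter
            (fun m => m ∈ Ico (2 * x) (2 * x + (2 * l : ℕ))), ‖cv l x γ Θ m‖ ^ 2 := by
          rw [Finset.sum_filter]
          refine Finset.sum_congr rfl fun m _ => ?_
          split_ifs with h
          · rfl
          · rw [cv_support l x γ Θ m h]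
            simp
      _ ≤ _ := by
          refine Finset.sum_le_sum_of_subset_of_nonneg (fun m hm => (mem_filter.1 hm).2) ?_
          intro m _ _
          positivity
  have h3 := hB (2 * l) (2 * l) (2 * x) (cv l x γ Θ) hp le_rfl
  have h4 := hB (2 * l) l x γ hp (by omega)
  have h5 : ∑ b ∈ range (2 * l), ‖ft (Ico (2 * x) (2 * x + (2 * l : ℕ))) (cv l x γ Θ)
      ((b : ℝ) / (2 * l : ℕ))‖ ^ 2 ≤
      R ^ 2 * ∑ b ∈ range (2 * l), ‖ft (Ico x (x + l)) γ ((b : ℝ) / (2 * l : ℕ))‖ ^ 2 := by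
    rw [Finset.mul_sum]
    refine Finset.sum_le_sum fun b _ => ?_
    rw [ft_cv, norm_mul, mul_pow, mul_comm]
    have h6 := hΘ ((b : ℝ) / (2 * l : ℕ))
    gcongr
  rw [h3, h4] at h5
  have hp' : (0 : ℝ) < ((2 * l : ℕ) : ℝ) := by exact_mod_cast hp
  have h7 : ((2 * l : ℕ) : ℝ) * ∑ m ∈ Ico (2 * x) (2 * x + (2 * l : ℕ)), ‖cv l x γ Θ m‖ ^ 2 ≤
      ((2 * l : ℕ) : ℝ) * (R ^ 2 * ∑ v ∈ Ico x (x + l), ‖γ v‖ ^ 2) := by
    calc _ ≤ _ := h5
      _ = _ := by ring
  exact h1.trans (le_of_mul_le_mul_left h7 hp')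

end Pool.Agent.H14.BOU
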