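import Pool.Agent.H31.BOU.Targets2

/-!
# The averages of one piece form a martingale along the chain
-/

set_option autoImplicit false

namespace Pool.Agent.H14.BOU

open Finset Pool.Agent.H31.BOU

/-- the double sum over two copies of `range (2 ^ j)` -/
theorem double_split (g : ℤ → ℂ) (j : ℕ) (κ : ℤ) :
    ∑ a ∈ range (2 ^ (j + 1)), ∑ b ∈ range (2 ^ (j + 1)), g (κ * 2 ^ (j + 1) + a + b) =
      (∑ a ∈ range (2 ^ j), ∑ b ∈ range (2 ^ j), g (2 * κ * 2 ^ j + a + b)) +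
      2 * (∑ a ∈ range (2 ^ j), ∑ b ∈ range (2 ^ j), g ((2 * κ + 1) * 2 ^ j + a + b)) +
      ∑ a ∈ range (2 ^ j), ∑ b ∈ range (2 ^ j), g ((2 * κ + 2) * 2 ^ j + a + b) := by
  have h0 : 2 ^ (j + 1) = 2 ^ j + 2 ^ j := by ring
  rw [h0]
  simp only [Finset.sum_range_add, Finset.sum_add_distrib]
  have e1 : ∀ a b : ℕ, κ * 2 ^ (j + 1) + (a : ℤ) + (b : ℤ) = 2 * κ * 2 ^ j + a + b := by
    intro a b
    ring
  have e2 : ∀ a b : ℕ, κ * 2 ^ (j + 1) + (a : ℤ) + ((2 ^ j + b : ℕ) : ℤ) =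
      (2 * κ + 1) * 2 ^ j + a + b := by
    intro a b
    push_cast
    ring
  have e3 : ∀ a b : ℕ, κ * 2 ^ (j + 1) + ((2 ^ j + a : ℕ) : ℤ) + (b : ℤ) =
      (2 * κ + 1) * 2 ^ j + a + b := by
    intro a b
    push_cast
    ring
  have e4 : ∀ a b : ℕ, κ * 2 ^ (j + 1) + ((2 ^ j + a : ℕ) : ℤ) + ((2 ^ j + b : ℕ) : ℤ) =
      (2 * κ + 2) * 2 ^ j + a + b := by
    intro a b
    push_cast
    ring
  simp only [e4]
  simp only [e2, e3]
  simp only [e1]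
  ring

theorem pf_MG : T_MG := by
  intro G β j κ
  unfold ph
  rw [double_split (fun v => G v * ee (-(β * ((v : ℤ) : ℝ)))) j κ]
  have h4 : (4 : ℂ) ^ (j + 1) = 4 * 4 ^ j := by ring
  have h5 : (4 : ℂ) ^ j ≠ 0 := pow_ne_zero _ (by norm_num)
  rw [h4]
  field_simp

end Pool.Agent.H14.BOU
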