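import Pool.Agent.H31.BOU.Targets2

/-!
# From a node to the parent of two neighbours of the node
-/

set_option autoImplicit false

namespace Pool.Agent.H14.BOU

open Finset Pool.Agent.H31.BOU

theorem near_nbr (T i j u : ℕ) (m κ : ℤ) (hT : u ≤ T) (hu : 1 ≤ u)
    (h : near 4 i m (j + 1) ((κ - u) / 2)) : near (cc T) i m j κ := by
  unfold near at *
  obtain ⟨h1, h2, h3⟩ := h
  have hd1 : 2 * ((κ - u) / 2) ≤ κ - u := by omega
  have hd2 : κ - u ≤ 2 * ((κ - u) / 2) + 1 := by omega
  generalize (κ - u) / 2 = π at *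
  have hj : (0 : ℤ) < 2 ^ j := by positivity
  have hi : (0 : ℤ) < 2 ^ i := by positivity
  have hji : (2 : ℤ) ^ j ≤ 2 ^ i := pow_le_pow_right₀ (by norm_num) (by omega)
  rw [pow_succ] at h2 h3
  have hc : ((cc T : ℕ) : ℤ) = 4 * T + 64 := by
    unfold cc
    push_cast
    ring
  have hu' : (u : ℤ) ≤ T := by exact_mod_cast hT
  have hu1 : (1 : ℤ) ≤ u := by exact_mod_cast hu
  push_cast at h2 h3
  refine ⟨by omega, ?_, ?_⟩
  · calc (m - (cc T : ℕ)) * 2 ^ i ≤ (m - 4) * 2 ^ i := by
          apply mul_le_mul_of_nonneg_right _ hi.le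
          rw [hc]
          linarith
      _ ≤ π * (2 ^ j * 2) := h2
      _ = (2 * π) * 2 ^ j := by ring
      _ ≤ κ * 2 ^ j := by
          apply mul_le_mul_of_nonneg_right _ hj.le
          linarith
  · calc (κ + 2) * 2 ^ j ≤ (2 * π + 4 + (u - 1)) * 2 ^ j := by
          apply mul_le_mul_of_nonneg_right _ hj.le
          linarith
      _ = (π + 2) * (2 ^ j * 2) + (u - 1) * 2 ^ j := by ring
      _ ≤ (m + 1 + 4) * 2 ^ i + (u - 1) * 2 ^ i := by
          apply add_le_add h3
          exact mul_le_mul_of_nonneg_left hji (by linarith)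
      _ = (m + 4 + u) * 2 ^ i := by ring
      _ ≤ (m + 1 + (cc T : ℕ)) * 2 ^ i := by
          apply mul_le_mul_of_nonneg_right _ hi.le
          rw [hc]
          linarith

theorem long_nbr (T i j u : ℕ) (m κ : ℤ) (hT : u ≤ T) (h : long (rr T) i m j κ) :
    long 2 i m (j + 1) ((κ - u) / 2) := by
  unfold long at *
  obtain ⟨h1, h2⟩ := h
  have hd1 : 2 * ((κ - u) / 2) ≤ κ - u := by omega
  have hd2 : κ - u ≤ 2 * ((κ - u) / 2) + 1 := by omega
  generalize (κ - u) / 2 = π at *
  have hj : (0 : ℤ) < 2 ^ j := by positivity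
  have hc : ((rr T : ℕ) : ℤ) = 2 * T + 16 := by
    unfold rr
    push_cast
    ring
  have hu' : (u : ℤ) ≤ T := by exact_mod_cast hT
  have hu0 : (0 : ℤ) ≤ u := by positivity
  rw [hc] at h1 h2
  rw [pow_succ]
  push_cast
  constructor
  · calc m * 2 ^ i ≤ (κ - (2 * T + 16)) * 2 ^ j := h1
      _ ≤ (2 * π - 4) * 2 ^ j := by
          apply mul_le_mul_of_nonneg_right _ hj.le
          linarith
      _ = (π - 2) * (2 ^ j * 2) := by ring
  · calc (π + 2) * (2 ^ j * 2) = (2 * π + 4) * 2 ^ j := by ring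
      _ ≤ (κ + (2 * T + 16)) * 2 ^ j := by
          apply mul_le_mul_of_nonneg_right _ hj.le
          linarith
      _ ≤ (m + 1) * 2 ^ i := h2

theorem pf_NBR : T_NBR := by
  intro ι θ _ _ T q Q P i j κ u hq hu hT h
  unfold alive at *
  obtain ⟨h1, h2, h3⟩ := h
  refine ⟨long_nbr T _ j u _ κ hT h1, ?_, ?_⟩
  · intro v hv
    have h4 := h2 v (near_nbr T _ j u _ κ hT hu hv)
    refine lt_of_le_of_lt ?_ h4
    apply div_le_div_of_nonneg_left (by positivity) (by positivity)
    exact pow_le_pow_right₀ (by norm_num) (by omega)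
  · classical
    constructor
    · refine le_trans ?_ h3.gn
      exact_mod_cast Finset.card_le_card (fun v hv => by
        rw [mem_filter] at hv ⊢
        exact ⟨hv.1, near_nbr T _ j u _ κ hT hu hv.2⟩)
    · refine le_trans ?_ h3.gd
      refine Finset.sum_le_sum_of_subset_of_nonneg (fun v hv => ?_) fun v _ _ => by positivity
      rw [mem_filter] at hv ⊢
      exact ⟨hv.1, near_nbr T _ j u _ κ hT hu hv.2⟩
    · refine le_trans ?_ h3.fn
      exact_mod_cast Finset.card_le_card (fun v hv => by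
        rw [mem_filter] at hv ⊢
        exact ⟨hv.1, near_nbr T _ j u _ κ hT hu hv.2⟩)
    · refine le_trans ?_ h3.fd
      refine Finset.sum_le_sum_of_subset_of_nonneg (fun v hv => ?_) fun v _ _ => by positivity
      rw [mem_filter] at hv ⊢
      exact ⟨hv.1, near_nbr T _ j u _ κ hT hu hv.2⟩

end Pool.Agent.H14.BOU
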